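import Pool.Agent.Lib.ALT.Full
import Pool.Agent.Lib.ALT.Upper

/-!
# Long alternating noncrossing paths among disjoint segments

Let `f n` be the largest integer `l` such that every collection of `n` pairwise disjoint segments
in general position in the plane admits a simple noncrossing alternating path which uses at least
`l` of the segments.  Then `f n` is of order `√n`.

Outline of the proof of the lower bound.  After a shear all abscissas of end points are
distinct.  Let `T` be the length of the longest path.  A family of segments is `k`-rich if any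
two outer points, one on the left and one on the right of the family, can be joined by an
alternating path through `k` of its members which stays in its vertical strip.  Rich families in
disjoint vertical strips can be glued, so the total richness of such a packing is at most `4 T`.
The potential `M t` is the largest total richness on the left of the line `x = t`.  Each segment
increases the potential by at least one.  For each value `m` the segments over which the
potential passes `m` are stabbed by one vertical line; each of them gets the weight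
`1 / increment` up to a factor two, so that the sum of all these weights over all `m < 4 T` is
about `n`.  The core is that the total weight for one value `m` is `O(T)`: the segments of
increment about `2 ^ e` cannot be `2 ^ (e + 2)`-rich, which bounds all obstacles when zigzag
paths through windows of segments of the different levels are concatenated to one path.

The upper bound is the known example: bundles of nested chords of a convex curve.
-/

set_option autoImplicit false

noncomputable section

namespace Pool.Agent.Results.MP_0187d8_co.OrderSqrt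

/-- cross product of two vectors of the plane; it vanishes iff they are parallel -/
def cross (u v : ℝ × ℝ) : ℝ := u.1 * v.2 - u.2 * v.1

/-- The closed segments `a i b i`, `i : Fin n`, are pairwise disjoint and in general position: no
two are parallel, all end points are distinct, and no three end points lie on a common line. -/
structure IsCollection {n : ℕ} (a b : Fin n → ℝ × ℝ) : Prop where
  disjoint : ∀ i j, i ≠ j → Disjoint (segment ℝ (a i) (b i)) (segment ℝ (a j) (b j))
  not_parallel : ∀ i j, i ≠ j → cross (b i - a i) (b j - a j) ≠ 0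
  a_ne_b : ∀ i j, a i ≠ b j
  a_ne_a : ∀ i j, i ≠ j → a i ≠ a j
  b_ne_b : ∀ i j, i ≠ j → b i ≠ b j
  not_collinear : ∀ x ∈ Set.range a ∪ Set.range b, ∀ y ∈ Set.range a ∪ Set.range b,
    ∀ z ∈ Set.range a ∪ Set.range b, x ≠ y → x ≠ z → y ≠ z → ¬ Collinear ℝ {x, y, z}

/-- The edge `x y` is one of the segments of the collection. -/
def IsMember {n : ℕ} (a b : Fin n → ℝ × ℝ) (x y : ℝ × ℝ) : Prop :=
  ∃ k, (x = a k ∧ y = b k) ∨ (x = b k ∧ y = a k)

/-- The polygonal path `p 0, p 1, ..., p (m - 1)` has its vertices among the end points of the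
segments, is simple (its vertices are distinct), is noncrossing (no two of its edges share a
point interior to either of them), and is alternating (every other edge is a member of the
collection). -/
structure IsAlternatingPath {n : ℕ} (a b : Fin n → ℝ × ℝ) (m : ℕ) (p : ℕ → ℝ × ℝ) : Prop where
  vertices : ∀ i < m, p i ∈ Set.range a ∪ Set.range b
  simple : ∀ i < m, ∀ j < m, i ≠ j → p i ≠ p j
  noncrossing : ∀ i j, i + 1 < m → j + 1 < m → i ≠ j →
    ∀ z ∈ segment ℝ (p i) (p (i + 1)), z ∈ segment ℝ (p j) (p (j + 1)) →
      z ∉ openSegment ℝ (p i) (p (i + 1)) ∧ z ∉ openSegment ℝ (p j) (p (j + 1))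
  alternating : ∃ r < 2, ∀ i, i + 1 < m → i % 2 = r → IsMember a b (p i) (p (i + 1))

open Classical in
/-- the length of the path: the number of its edges which are members of the collection -/
def pathLength {n : ℕ} (a b : Fin n → ℝ × ℝ) (m : ℕ) (p : ℕ → ℝ × ℝ) : ℕ :=
  ((Finset.range (m - 1)).filter (fun i => IsMember a b (p i) (p (i + 1)))).card

/-- Every collection of `n` segments admits an alternating path of length at least `l`. -/
def Guaranteed (n l : ℕ) : Prop :=
  ∀ a b : Fin n → ℝ × ℝ, IsCollection a b →
    ∃ (m : ℕ) (p : ℕ → ℝ × ℝ), IsAlternatingPath a b m p ∧ l ≤ pathLength a b m p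

/-- the largest guaranteed length -/
def f (n : ℕ) : ℕ := sSup {l : ℕ | Guaranteed n l}

/-- **The order of magnitude of `f` is `√n`.** -/
theorem result : ∃ c C : ℝ, 0 < c ∧ 0 < C ∧ ∀ n : ℕ, 1 ≤ n →
    IsGreatest {l : ℕ | Guaranteed n l} (f n) ∧
      c * Real.sqrt n ≤ (f n : ℝ) ∧ (f n : ℝ) ≤ C * Real.sqrt n := by
  obtain ⟨c, hc, h⟩ := Pool.Agent.Lib.ALT.main_sqrt
  refine ⟨c, 6, hc, by norm_num, fun n hn => ?_⟩
  have hlow : ∀ a b : Fin n → ℝ × ℝ, IsCollection a b →
      ∃ (m : ℕ) (p : ℕ → ℝ × ℝ), IsAlternatingPath a b m p ∧
        c * Real.sqrt n ≤ (pathLength a b m p : ℝ) := by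
    intro a b hab
    obtain ⟨m, p, hp, hl⟩ := h n a b ⟨hab.disjoint, hab.not_parallel, hab.a_ne_b, hab.a_ne_a,
      hab.b_ne_b, hab.not_collinear⟩
    exact ⟨m, p, ⟨hp.vertices, hp.simple, hp.noncrossing, hp.alternating⟩, hl⟩
  obtain ⟨a, b, hab, hup⟩ := Pool.Agent.Lib.ALT.upper hn
  have hab' : IsCollection a b := ⟨hab.disjoint, hab.not_parallel, hab.a_ne_b, hab.a_ne_a,
    hab.b_ne_b, hab.not_collinear⟩
  have hle : ∀ l, Guaranteed n l → (l : ℝ) ≤ 6 * Real.sqrt n := by
    intro l hl
    obtain ⟨m, p, hp, h1⟩ := hl a b hab'
    have h2 := hup m p ⟨hp.vertices, hp.simple, hp.noncrossing, hp.alternating⟩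
    have h3 : (l : ℝ) ≤ (pathLength a b m p : ℝ) := by exact_mod_cast h1
    exact h3.trans h2
  have hmem : Guaranteed n ⌈c * Real.sqrt n⌉₊ := by
    intro a b hab
    obtain ⟨m, p, hp, h1⟩ := hlow a b hab
    exact ⟨m, p, hp, Nat.ceil_le.2 h1⟩
  have hbdd : BddAbove {l : ℕ | Guaranteed n l} :=
    ⟨⌊6 * Real.sqrt n⌋₊, fun l hl => Nat.le_floor (hle l hl)⟩
  have hgr : IsGreatest {l : ℕ | Guaranteed n l} (f n) :=
    ⟨Nat.sSup_mem ⟨_, hmem⟩ hbdd, fun l hl => le_csSup hbdd hl⟩
  refine ⟨hgr, ?_, hle _ hgr.1⟩
  have h4 : ((⌈c * Real.sqrt n⌉₊ : ℕ) : ℝ) ≤ (f n : ℝ) := by exact_mod_cast hgr.2 hmem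
  exact (Nat.le_ceil _).trans h4

end Pool.Agent.Results.MP_0187d8_co.OrderSqrt
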